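import Mathlib

open MeasureTheory ProbabilityTheory Filter Topology Set

namespace Pool.Agent.H.MP_5c394f_nt

noncomputable def mu : Measure ℝ := volume.restrict (Icc (0:ℝ) 1)

instance : IsProbabilityMeasure mu := ⟨by simp [mu]⟩

lemma cont_int {E : Type*} [NormedAddCommGroup E] {f : ℝ → E} (hf : Continuous f) :
    Integrable f mu := hf.integrableOn_Icc

lemma mem_int {X : ℝ → ℝ} (hX : Continuous X) (t : ℝ) : t ∈ interior (integrableExpSet X mu) := by
  have : integrableExpSet X mu = univ := by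
    ext s
    simp only [integrableExpSet, mem_setOf_eq, mem_univ, iff_true]
    exact cont_int (by fun_prop)
  simp [this]

lemma mgf_pos' {X : ℝ → ℝ} (hX : Continuous X) (t : ℝ) : 0 < mgf X mu t :=
  mgf_pos (cont_int (by fun_prop))

noncomputable def kappa (m : ℕ) (X : ℝ → ℝ) : ℝ :=
  iteratedDeriv m (fun t => Real.log (mgf X mu t)) 0

lemma cum_add {X Y : ℝ → ℝ} (hX : Continuous X) (hY : Continuous Y) (m : ℕ)
    (h : ∀ i j, i + j ≤ m → ∫ w, X w ^ i * Y w ^ j ∂mu = (∫ w, X w ^ i ∂mu) * ∫ w, Y w ^ j ∂mu) :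
    kappa m (X + Y) = kappa m X + kappa m Y := by
  have hXY : Continuous (X + Y) := hX.add hY
  have aF : AnalyticAt ℝ (mgf (X + Y) mu) 0 := analyticAt_mgf (mem_int hXY 0)
  have aX : AnalyticAt ℝ (mgf X mu) 0 := analyticAt_mgf (mem_int hX 0)
  have aY : AnalyticAt ℝ (mgf Y mu) 0 := analyticAt_mgf (mem_int hY 0)
  set F := mgf (X + Y) mu with hF
  set G := mgf X mu * mgf Y mu with hG
  have aG : AnalyticAt ℝ G 0 := aX.mul aY
  have Gpos : ∀ t, 0 < G t := fun t => mul_pos (mgf_pos' hX t) (mgf_pos' hY t)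
  have Fpos : ∀ t, 0 < F t := fun t => mgf_pos' hXY t
  have h1 : ((m + 1 : ℕ) : ℕ∞) ≤ analyticOrderAt (F - G) 0 := by
    rw [natCast_le_analyticOrderAt_iff_iteratedDeriv_eq_zero (aF.sub aG)]
    intro i hi
    rw [iteratedDeriv_sub aF.contDiffAt aG.contDiffAt, hG,
      iteratedDeriv_mul aX.contDiffAt aY.contDiffAt, hF, iteratedDeriv_mgf_zero (mem_int hXY 0),
      sub_eq_zero]
    have e1 : (X + Y) ^ i = fun w => ∑ k ∈ Finset.range (i + 1),
        (i.choose k : ℝ) * (X w ^ k * Y w ^ (i - k)) := by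
      funext w
      simp only [Pi.pow_apply, Pi.add_apply, add_pow]
      exact Finset.sum_congr rfl fun k _ => by ring
    rw [e1, integral_finset_sum _ (fun k _ => cont_int (by fun_prop))]
    refine Finset.sum_congr rfl fun k hk => ?_
    have hk' : k ≤ i := Nat.lt_succ_iff.mp (Finset.mem_range.mp hk)
    rw [integral_const_mul, h k (i - k) (by omega), iteratedDeriv_mgf_zero (mem_int hX 0),
      iteratedDeriv_mgf_zero (mem_int hY 0), mul_assoc]
    rfl
  have aGi : AnalyticAt ℝ (G⁻¹) 0 := aG.inv (Gpos 0).ne'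
  set H : ℝ → ℝ := F * G⁻¹ with hH
  have aH : AnalyticAt ℝ H 0 := aF.mul aGi
  have H0 : H 0 = 1 := by simp [hH, hF, hG]
  have h2 : ((m + 1 : ℕ) : ℕ∞) ≤ analyticOrderAt (fun t => H t - H 0) 0 := by
    have e : (fun t => H t - H 0) = (F - G) * G⁻¹ := by
      funext t
      have := (Gpos t).ne'
      rw [H0]
      simp only [hH, Pi.mul_apply, Pi.inv_apply, Pi.sub_apply]
      field_simp
    rw [e, analyticOrderAt_mul (aF.sub aG) aGi]
    exact h1.trans le_self_add
  have aL : AnalyticAt ℝ Real.log (H 0) := by rw [H0]; exact analyticAt_log one_pos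
  have h3 : ((m + 1 : ℕ) : ℕ∞) ≤ analyticOrderAt (Real.log ∘ H) 0 := by
    rw [aL.analyticOrderAt_comp aH]
    have : analyticOrderAt Real.log (H 0) ≠ 0 := by
      rw [aL.analyticOrderAt_ne_zero, H0, Real.log_one]
    have h1' : 1 ≤ analyticOrderAt Real.log (H 0) := Order.one_le_iff_ne_zero.mpr this
    calc _ ≤ 1 * analyticOrderAt (fun t => H t - H 0) 0 := by rw [one_mul]; exact h2
      _ ≤ _ := by gcongr
  have aLH : AnalyticAt ℝ (Real.log ∘ H) 0 := aL.comp aH
  rw [natCast_le_analyticOrderAt_iff_iteratedDeriv_eq_zero aLH] at h3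
  have h4 := h3 m (Nat.lt_succ_self m)
  have cX : AnalyticAt ℝ (fun t => Real.log (mgf X mu t)) 0 := analyticAt_cgf (mem_int hX 0)
  have cY : AnalyticAt ℝ (fun t => Real.log (mgf Y mu t)) 0 := analyticAt_cgf (mem_int hY 0)
  have e : (fun t => Real.log (mgf (X + Y) mu t)) = (Real.log ∘ H) +
      ((fun t => Real.log (mgf X mu t)) + fun t => Real.log (mgf Y mu t)) := by
    funext t
    have p1 := (mgf_pos' hX t).ne'
    have p2 := (mgf_pos' hY t).ne'
    have p3 := (Fpos t).ne'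
    simp only [Pi.add_apply, Function.comp, hH, hG, Pi.mul_apply, Pi.inv_apply]
    rw [Real.log_mul p3 (inv_ne_zero (mul_ne_zero p1 p2)), Real.log_inv, Real.log_mul p1 p2]
    ring
  unfold kappa
  rw [e, iteratedDeriv_add aLH.contDiffAt (cX.add cY).contDiffAt, h4, zero_add,
    iteratedDeriv_add cX.contDiffAt cY.contDiffAt]

noncomputable def I0 (t : ℝ) : ℝ := ∑' j : ℕ, (t / 2) ^ (2 * j) / ((j.factorial : ℝ)) ^ 2

noncomputable def J (a : ℕ) (n : ℕ) : ℝ := ∫ w, Real.cos (2 * Real.pi * a * w) ^ n ∂mu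

lemma mu_int {E : Type*} [NormedAddCommGroup E] [NormedSpace ℝ E] (f : ℝ → E) :
    ∫ w, f w ∂mu = ∫ w in (0:ℝ)..1, f w := by
  rw [intervalIntegral.integral_of_le zero_le_one, mu, integral_Icc_eq_integral_Ioc]

lemma J_eq {a : ℕ} (ha : 0 < a) (n : ℕ) :
    J a n = (2 * Real.pi * a)⁻¹ * ∫ x in (0:ℝ)..(2 * Real.pi * a), Real.cos x ^ n := by
  have hc : (2 * Real.pi * a : ℝ) ≠ 0 := by positivity
  rw [J, mu_int, intervalIntegral.integral_comp_mul_left (fun x => Real.cos x ^ n) hc]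
  simp

lemma J_rec {a : ℕ} (ha : 0 < a) (n : ℕ) : J a (n + 2) = (n + 1) / (n + 2) * J a n := by
  have hs : Real.sin (2 * Real.pi * a) = 0 := by
    rw [show 2 * Real.pi * a = ((2 * a : ℕ) : ℝ) * Real.pi by push_cast; ring]
    exact Real.sin_nat_mul_pi _
  rw [J_eq ha, J_eq ha, integral_cos_pow, hs]
  simp
  ring

lemma J_odd {a : ℕ} (ha : 0 < a) (j : ℕ) : J a (2 * j + 1) = 0 := by
  induction j with
  | zero =>
    have hs : Real.sin (2 * Real.pi * a) = 0 := by
      rw [show 2 * Real.pi * a = ((2 * a : ℕ) : ℝ) * Real.pi by push_cast; ring]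
      exact Real.sin_nat_mul_pi _
    rw [J_eq ha]; simp [hs]
  | succ j ih => rw [show 2 * (j + 1) + 1 = (2 * j + 1) + 2 by ring, J_rec ha, ih, mul_zero]

lemma J_even {a : ℕ} (ha : 0 < a) (j : ℕ) :
    J a (2 * j) / ((2 * j).factorial : ℝ) = 1 / (2 ^ (2 * j) * (j.factorial : ℝ) ^ 2) := by
  induction j with
  | zero => simp [J]
  | succ j ih =>
    rw [show 2 * (j + 1) = (2 * j) + 2 by ring, J_rec ha]
    have hf : ((2 * j).factorial : ℝ) ≠ 0 := by positivity
    have hg : (j.factorial : ℝ) ≠ 0 := by positivity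
    rw [div_eq_iff hf] at ih
    rw [ih, Nat.factorial_succ, Nat.factorial_succ, Nat.factorial_succ j]
    push_cast
    field_simp
    ring

lemma mgf_cos {a : ℕ} (ha : 0 < a) (t : ℝ) :
    mgf (fun w => Real.cos (2 * Real.pi * a * w)) mu t = I0 t := by
  have h1 : HasSum (fun n : ℕ => ∫ w, (t * Real.cos (2 * Real.pi * a * w)) ^ n / (n.factorial : ℝ) ∂mu)
      (∫ w, ∑' n : ℕ, (t * Real.cos (2 * Real.pi * a * w)) ^ n / (n.factorial : ℝ) ∂mu) := by
    refine hasSum_integral_of_summable_integral_norm (fun n => cont_int (by fun_prop)) ?_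
    refine Summable.of_nonneg_of_le (fun n => integral_nonneg fun w => norm_nonneg _)
      (fun n => ?_) (Real.summable_pow_div_factorial |t|)
    calc _ ≤ ∫ _w, |t| ^ n / (n.factorial : ℝ) ∂mu := by
          refine integral_mono (cont_int (by fun_prop)) (integrable_const _) fun w => ?_
          simp only [norm_div, norm_pow, Real.norm_eq_abs, abs_mul, Nat.abs_cast]
          gcongr
          exact mul_le_of_le_one_right (abs_nonneg _) (Real.abs_cos_le_one _)
      _ = _ := by simp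
  have h2 : (∫ w, ∑' n : ℕ, (t * Real.cos (2 * Real.pi * a * w)) ^ n / (n.factorial : ℝ) ∂mu) =
      mgf (fun w => Real.cos (2 * Real.pi * a * w)) mu t := by
    unfold mgf
    congr 1
    funext w
    rw [Real.exp_eq_exp_ℝ, NormedSpace.exp_eq_tsum_div]
  have h3 : ∀ n : ℕ, (∫ w, (t * Real.cos (2 * Real.pi * a * w)) ^ n / (n.factorial : ℝ) ∂mu) =
      t ^ n * (J a n / (n.factorial : ℝ)) := by
    intro n
    simp only [mul_pow, J]
    rw [integral_div, integral_const_mul, mul_div_assoc]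
  rw [h2] at h1
  simp only [h3] at h1
  have he : Summable fun j : ℕ => t ^ (2 * j) * (J a (2 * j) / ((2 * j).factorial : ℝ)) :=
    h1.summable.comp_injective (fun x y h => by simpa using h : Function.Injective fun j : ℕ => 2 * j)
  have ho : HasSum (fun j : ℕ => t ^ (2 * j + 1) * (J a (2 * j + 1) / ((2 * j + 1).factorial : ℝ))) 0 := by
    simp only [J_odd ha]; simpa using hasSum_zero
  have := HasSum.even_add_odd (f := fun n : ℕ => t ^ n * (J a n / (n.factorial : ℝ))) he.hasSum ho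
  rw [h1.unique this, add_zero, I0]
  congr 1
  funext j
  rw [J_even ha, div_pow]
  field_simp

end Pool.Agent.H.MP_5c394f_nt
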