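import Pool.Agent.H.MP_5c394f_nt.A

open MeasureTheory ProbabilityTheory Filter Topology Set
open scoped Pointwise

namespace Pool.Agent.H.MP_5c394f_nt

noncomputable def e (k : ℤ) : ℝ → ℂ := fun w => Complex.exp (2 * Real.pi * Complex.I * k * w)

lemma e_mul (k l : ℤ) : e k * e l = e (k + l) := by
  funext w
  simp only [e, Pi.mul_apply, ← Complex.exp_add]
  congr 1; push_cast; ring

lemma e_cont (k : ℤ) : Continuous (e k) := by unfold e; fun_prop

lemma e_int (k : ℤ) : ∫ w, e k w ∂mu = if k = 0 then 1 else 0 := by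
  split_ifs with h
  · simp [h, e]
  · have hc : (2 * Real.pi * Complex.I * k : ℂ) ≠ 0 := by
      have : (k : ℂ) ≠ 0 := by exact_mod_cast h
      have h2 : (Real.pi : ℂ) ≠ 0 := by exact_mod_cast Real.pi_ne_zero
      simp [this, h2]
    rw [mu_int]
    simp only [e]
    rw [integral_exp_mul_complex hc]
    have : Complex.exp (2 * Real.pi * Complex.I * k) = 1 := by
      rw [mul_comm]; exact Complex.exp_int_mul_two_pi_mul_I k
    simp [this]

noncomputable def TP (A : Set ℤ) : Submodule ℂ (ℝ → ℂ) := Submodule.span ℂ (e '' A)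

lemma TP_mono {A B : Set ℤ} (h : A ⊆ B) : TP A ≤ TP B := Submodule.span_mono (image_mono h)

lemma e_mem {A : Set ℤ} {k : ℤ} (h : k ∈ A) : e k ∈ TP A := Submodule.subset_span ⟨k, h, rfl⟩

lemma TP_cont {A : Set ℤ} {f : ℝ → ℂ} (hf : f ∈ TP A) : Continuous f := by
  induction hf using Submodule.span_induction with
  | mem x hx => obtain ⟨k, -, rfl⟩ := hx; exact e_cont k
  | zero => exact continuous_const
  | add x y _ _ hx hy => exact hx.add hy
  | smul a x _ hx => exact hx.const_smul a

lemma TP_mul {A B : Set ℤ} {f g : ℝ → ℂ} (hf : f ∈ TP A) (hg : g ∈ TP B) : f * g ∈ TP (A + B) := by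
  induction hf using Submodule.span_induction with
  | mem x hx =>
    obtain ⟨k, hk, rfl⟩ := hx
    induction hg using Submodule.span_induction with
    | mem y hy =>
      obtain ⟨l, hl, rfl⟩ := hy
      rw [e_mul]; exact e_mem (add_mem_add hk hl)
    | zero => simp
    | add x y _ _ hx hy => rw [mul_add]; exact add_mem hx hy
    | smul a x _ hx => rw [mul_smul_comm]; exact Submodule.smul_mem _ _ hx
  | zero => simp
  | add x y _ _ hx hy => rw [add_mul]; exact add_mem hx hy
  | smul a x _ hx => rw [smul_mul_assoc]; exact Submodule.smul_mem _ _ hx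

lemma TP_pow {A : Set ℤ} {f : ℝ → ℂ} (hf : f ∈ TP A) (i : ℕ) : f ^ i ∈ TP (i • A) := by
  induction i with
  | zero =>
    have : (1 : ℝ → ℂ) = e 0 := by funext w; simp [e]
    rw [pow_zero, this]
    exact e_mem (by simp)
  | succ i ih => rw [pow_succ, succ_nsmul]; exact TP_mul ih hf

lemma TP_fact {A B : Set ℤ} (hAB : ∀ k ∈ A, ∀ l ∈ B, k + l = 0 → k = 0) {f g : ℝ → ℂ}
    (hf : f ∈ TP A) (hg : g ∈ TP B) :
    ∫ w, f w * g w ∂mu = (∫ w, f w ∂mu) * ∫ w, g w ∂mu := by
  induction hf using Submodule.span_induction with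
  | mem x hx =>
    obtain ⟨k, hk, rfl⟩ := hx
    induction hg using Submodule.span_induction with
    | mem y hy =>
      obtain ⟨l, hl, rfl⟩ := hy
      have : (fun w => e k w * e l w) = e (k + l) := e_mul k l
      rw [this, e_int, e_int, e_int]
      by_cases h : k + l = 0
      · have h1 := hAB k hk l hl h
        have h2 : l = 0 := by omega
        simp [h1, h2]
      · by_cases h1 : k = 0
        · have h2 : l ≠ 0 := by omega
          simp [h1, h2]
        · simp [h, h1]
    | zero => simp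
    | add x y hx' hy' hx hy =>
      have c1 := TP_cont (A := B) hx'
      have c2 := TP_cont (A := B) hy'
      have c3 := e_cont k
      simp only [Pi.add_apply, mul_add]
      rw [integral_add (cont_int (by fun_prop)) (cont_int (by fun_prop)),
        integral_add (cont_int c1) (cont_int c2), hx, hy, mul_add]
    | smul a x _ hx =>
      simp only [Pi.smul_apply, smul_eq_mul]
      rw [integral_const_mul, ← mul_assoc, mul_comm _ a, mul_assoc, ← hx, ← integral_const_mul]
      congr 1; funext w; ring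
  | zero => simp
  | add x y hx' hy' hx hy =>
    have c1 := TP_cont (A := A) hx'
    have c2 := TP_cont (A := A) hy'
    have c3 := TP_cont hg
    simp only [Pi.add_apply, add_mul]
    rw [integral_add (cont_int (by fun_prop)) (cont_int (by fun_prop)),
      integral_add (cont_int c1) (cont_int c2), hx, hy, add_mul]
  | smul a x _ hx =>
    simp only [Pi.smul_apply, smul_eq_mul]
    rw [integral_const_mul, mul_assoc, ← hx, ← integral_const_mul]
    congr 1; funext w; ring

lemma cos_mem {A : Set ℤ} {a : ℕ} (h1 : (a : ℤ) ∈ A) (h2 : -(a : ℤ) ∈ A) :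
    (fun w : ℝ => ((Real.cos (2 * Real.pi * a * w) : ℝ) : ℂ)) ∈ TP A := by
  have : (fun w : ℝ => ((Real.cos (2 * Real.pi * a * w) : ℝ) : ℂ)) =
      (1 / 2 : ℂ) • (e a + e (-a)) := by
    funext w
    simp only [e, Pi.smul_apply, Pi.add_apply, smul_eq_mul, Complex.ofReal_cos, Complex.cos]
    push_cast
    rw [show (2 * (Real.pi:ℂ) * a * w) * Complex.I = 2 * Real.pi * Complex.I * a * w by ring,
      show -(2 * (Real.pi:ℂ) * a * w) * Complex.I = 2 * Real.pi * Complex.I * (-a) * w by ring]
    ring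
  rw [this]
  exact Submodule.smul_mem _ _ (add_mem (e_mem h1) (e_mem h2))

lemma nsmul_pm {y : ℤ} (j : ℕ) : ∀ l ∈ j • ({y, -y} : Set ℤ), ∃ r : ℤ, |r| ≤ j ∧ l = r * y := by
  induction j with
  | zero => intro l hl; exact ⟨0, by simp, by simpa using hl⟩
  | succ j ih =>
    intro l hl
    rw [succ_nsmul] at hl
    obtain ⟨u, hu, v, hv, rfl⟩ := hl
    obtain ⟨r, hr, rfl⟩ := ih u hu
    rw [abs_le] at hr
    rcases hv with rfl | rfl
    · exact ⟨r + 1, by rw [abs_le]; push_cast; omega, by ring⟩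
    · exact ⟨r - 1, by rw [abs_le]; push_cast; omega, by ring⟩

lemma real_fact {X : ℝ → ℝ} {T : Finset ℤ} (h0 : (0:ℤ) ∈ T)
    (hX : (fun w => (X w : ℂ)) ∈ TP (T : Set ℤ)) {y M : ℕ}
    (hy : ∀ r : ℤ, r ≠ 0 → |r| ≤ M → r * y ∉ M • T) (i j : ℕ) (hij : i + j ≤ M) :
    ∫ w, X w ^ i * Real.cos (2 * Real.pi * y * w) ^ j ∂mu =
      (∫ w, X w ^ i ∂mu) * ∫ w, Real.cos (2 * Real.pi * y * w) ^ j ∂mu := by
  have h1 := TP_pow hX i
  have h2 := TP_pow (cos_mem (A := {(y:ℤ), -(y:ℤ)}) (a := y) (by simp) (by simp)) j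
  have h3 := TP_fact (fun k hk l hl hkl => by
    obtain ⟨r, hr, rfl⟩ := nsmul_pm j l hl
    by_contra hk0
    have hr0 : r ≠ 0 := by rintro rfl; simp at hkl; exact hk0 hkl
    refine hy (-r) (neg_ne_zero.mpr hr0) (by rw [abs_neg]; omega) ?_
    have e1 : -r * y = k := by linarith
    rw [e1]
    have : k ∈ i • T := by rw [← Finset.mem_coe, Finset.coe_nsmul]; exact hk
    exact Finset.nsmul_subset_nsmul_right h0 (by omega) this) h1 h2
  apply Complex.ofReal_injective
  rw [Complex.ofReal_mul, ← integral_complex_ofReal, ← integral_complex_ofReal,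
    ← integral_complex_ofReal]
  simpa only [Pi.pow_apply, Complex.ofReal_mul, Complex.ofReal_pow] using h3

end Pool.Agent.H.MP_5c394f_nt
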