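import Pool.Agent.H.MP_5c394f_nt.B

open MeasureTheory ProbabilityTheory Filter Topology Set
open scoped Pointwise

namespace Pool.Agent.H.MP_5c394f_nt

lemma step_ex (c : ℝ) (hc : 0 ≤ c) (D : Finset ℤ) (M : ℕ) :
    ∃ y : ℕ, c ≤ y ∧ (y : ℝ) ≤ c + (2 * M + 1) * D.card + 1 ∧
      ∀ r : ℤ, r ≠ 0 → |r| ≤ M → r * y ∉ D := by
  classical
  set B : Finset ℕ := (D ×ˢ Finset.Icc (-(M:ℤ)) M).image fun p => (p.1 / p.2).toNat with hB
  have hBc : B.card ≤ (2 * M + 1) * D.card := by
    refine Finset.card_image_le.trans ?_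
    rw [Finset.card_product, Int.card_Icc, mul_comm]
    gcongr
    omega
  have hlt : B.card < (Finset.Icc ⌈c⌉₊ (⌈c⌉₊ + B.card)).card := by simp; omega
  obtain ⟨y, hy, hyB⟩ := Finset.exists_mem_notMem_of_card_lt_card hlt
  rw [Finset.mem_Icc] at hy
  refine ⟨y, (Nat.le_ceil c).trans (by exact_mod_cast hy.1), ?_, fun r hr hrM hD => hyB ?_⟩
  · have h1 : (y : ℝ) ≤ ⌈c⌉₊ + B.card := by exact_mod_cast hy.2
    have h2 : (B.card : ℝ) ≤ (2 * M + 1) * D.card := by exact_mod_cast hBc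
    have h3 := Nat.ceil_lt_add_one hc
    linarith
  · rw [hB, Finset.mem_image]
    refine ⟨(r * y, r), ?_, ?_⟩
    · rw [Finset.mem_product, Finset.mem_Icc]
      exact ⟨hD, abs_le.mp hrM⟩
    · simp [Int.mul_ediv_cancel_left _ hr]

open Classical in
noncomputable def MM (η : ℝ) (n : ℕ) : ℕ :=
  Nat.findGreatest (fun m => ((2 * m + 1) * (2 * n + 3) ^ m : ℝ) * (n + 1) ≤ η ^ n) n

lemma MM_bd {η : ℝ} (hη : 1 < η) (n : ℕ) :
    ((2 * MM η n + 1) * (2 * n + 3) ^ MM η n : ℝ) ≤ η ^ n / (n + 1) + 1 := by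
  classical
  have hp : 0 ≤ η ^ n / (n + 1) := by have : 0 < η := by linarith
                                      positivity
  by_cases h : MM η n = 0
  · rw [h]; simp; exact hp
  · have := Nat.findGreatest_of_ne_zero (P := fun m : ℕ =>
      ((2 * m + 1) * (2 * n + 3) ^ m : ℝ) * (n + 1) ≤ η ^ n) (n := n) (m := MM η n) rfl h
    rw [← le_div_iff₀ (by positivity)] at this
    linarith

lemma MM_ev {η : ℝ} (hη : 1 < η) (m : ℕ) : ∀ᶠ n in atTop, m ≤ MM η n := by
  classical
  have h := tendsto_pow_const_div_const_pow_of_one_lt (m + 1) hη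
  have hc : (0:ℝ) < 1 / ((2 * m + 1) * 5 ^ m * 2) := by positivity
  filter_upwards [h.eventually (gt_mem_nhds hc), eventually_ge_atTop m, eventually_ge_atTop 1]
    with n h1 h2 h3
  refine Nat.le_findGreatest h2 ?_
  have hη0 : 0 < η ^ n := by have : 0 < η := by linarith
                             positivity
  rw [div_lt_div_iff₀ hη0 (by positivity), one_mul] at h1
  have hn : (1:ℝ) ≤ n := by exact_mod_cast h3
  calc ((2 * m + 1) * (2 * n + 3) ^ m : ℝ) * (n + 1)
      ≤ ((2 * m + 1) * (5 * n) ^ m : ℝ) * (2 * n) := by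
        gcongr <;> linarith
    _ = (n:ℝ) ^ (m + 1) * ((2 * m + 1) * 5 ^ m * 2) := by rw [mul_pow]; ring
    _ ≤ _ := h1.le

noncomputable def nxt (η : ℝ) (n : ℕ) (s : ℕ × Finset ℤ) : ℕ :=
  (step_ex (|η| * s.1) (by positivity) (MM η n • s.2) (MM η n)).choose

noncomputable def st (η : ℝ) : ℕ → ℕ × Finset ℤ
  | 0 => (1, {0, 1, -1})
  | n + 1 => (nxt η n (st η n),
      insert (nxt η n (st η n) : ℤ) (insert (-(nxt η n (st η n) : ℤ)) (st η n).2))

noncomputable def sq (η : ℝ) (n : ℕ) : ℕ := (st η n).1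

lemma sq_spec {η : ℝ} (hη : 1 < η) (n : ℕ) :
    η * sq η n ≤ sq η (n + 1) ∧
    (sq η (n + 1) : ℝ) ≤ η * sq η n + (2 * MM η n + 1) * (MM η n • (st η n).2).card + 1 ∧
      ∀ r : ℤ, r ≠ 0 → |r| ≤ MM η n → r * sq η (n + 1) ∉ MM η n • (st η n).2 := by
  have := (step_ex (|η| * (st η n).1) (by positivity) (MM η n • (st η n).2) (MM η n)).choose_spec
  have ha : |η| = η := abs_of_pos (by linarith)
  have h1 : |η| * sq η n ≤ sq η (n + 1) := this.1
  have h2 : (sq η (n + 1) : ℝ) ≤ |η| * sq η n +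
      (2 * MM η n + 1) * (MM η n • (st η n).2).card + 1 := this.2.1
  rw [ha] at h1 h2
  exact ⟨h1, h2, this.2.2⟩

lemma st_zero (η : ℝ) (n : ℕ) : (0:ℤ) ∈ (st η n).2 := by
  induction n with
  | zero => simp [st]
  | succ n ih => simp [st, ih]

lemma st_card (η : ℝ) (n : ℕ) : (st η n).2.card ≤ 2 * n + 3 := by
  induction n with
  | zero => simp only [st]; exact Finset.card_le_three
  | succ n ih =>
    simp only [st]
    refine (Finset.card_insert_le _ _).trans ?_
    have := Finset.card_insert_le (-(nxt η n (st η n) : ℤ)) (st η n).2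
    omega

lemma st_mem (η : ℝ) (n : ℕ) : ∀ k ≤ n, (sq η k : ℤ) ∈ (st η n).2 ∧ -(sq η k : ℤ) ∈ (st η n).2 := by
  induction n with
  | zero => intro k hk; obtain rfl : k = 0 := by omega
            simp [st, sq]
  | succ n ih =>
    intro k hk
    rcases Nat.lt_or_eq_of_le hk with h | rfl
    · have := ih k (by omega)
      simp [st, this.1, this.2]
    · simp [st, sq]

lemma sq_ge {η : ℝ} (hη : 1 < η) (n : ℕ) : η ^ n ≤ sq η n := by
  induction n with
  | zero => simp [sq, st]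
  | succ n ih =>
    refine le_trans ?_ (sq_spec hη n).1
    rw [pow_succ']
    gcongr

lemma sq_pos {η : ℝ} (hη : 1 < η) (n : ℕ) : 0 < sq η n := by
  have h := sq_ge hη n
  have : 0 < η ^ n := by have : 0 < η := by linarith
                         positivity
  exact_mod_cast this.trans_le h

lemma sq_mono {η : ℝ} (hη : 1 < η) : StrictMono (sq η) := by
  refine strictMono_nat_of_lt_succ fun n => ?_
  have h := (sq_spec hη n).1
  have h0 : (0:ℝ) < sq η n := by exact_mod_cast sq_pos hη n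
  have : (sq η n : ℝ) < sq η (n + 1) := by nlinarith
  exact_mod_cast this

lemma sq_ratio {η : ℝ} (hη : 1 < η) :
    Tendsto (fun k => (sq η (k + 1) : ℝ) / sq η k) atTop (𝓝 η) := by
  have hη0 : 0 < η := by linarith
  have t1 : Tendsto (fun k : ℕ => η + (1 / ((k:ℝ) + 1) + 2 * (η⁻¹) ^ k)) atTop (𝓝 (η + (0 + 2 * 0))) := by
    refine tendsto_const_nhds.add (tendsto_one_div_add_atTop_nhds_zero_nat.add
      (tendsto_const_nhds.mul (tendsto_pow_atTop_nhds_zero_of_lt_one (by positivity) ?_)))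
    exact inv_lt_one_of_one_lt₀ hη
  simp only [mul_zero, add_zero] at t1
  refine tendsto_of_tendsto_of_tendsto_of_le_of_le tendsto_const_nhds t1 (fun k => ?_) fun k => ?_
  · have h0 : (0:ℝ) < sq η k := by exact_mod_cast sq_pos hη k
    simp only
    rw [le_div_iff₀ h0]; exact (sq_spec hη k).1
  · have h0 : (0:ℝ) < sq η k := by exact_mod_cast sq_pos hη k
    have h1 := (sq_spec hη k).2.1
    have h2 : (((MM η k • (st η k).2).card : ℕ) : ℝ) ≤ (2 * k + 3) ^ MM η k := by
      have := (Finset.card_nsmul_le (s := (st η k).2) (n := MM η k)).trans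
        (Nat.pow_le_pow_left (st_card η k) _)
      exact_mod_cast this
    have h3 := MM_bd hη k
    have h4 := sq_ge hη k
    have h5 : 0 < η ^ k := by positivity
    simp only
    rw [div_le_iff₀ h0]
    have h6 : (2 * MM η k + 1 : ℝ) * (MM η k • (st η k).2).card ≤ η ^ k / (k + 1) + 1 :=
      le_trans (by gcongr) h3
    have h7 : η ^ k / (k + 1) + 2 ≤ (1 / ((k:ℝ) + 1) + 2 * (η⁻¹) ^ k) * sq η k := by
      calc η ^ k / (k + 1) + 2 = (1 / ((k:ℝ) + 1) + 2 * (η⁻¹) ^ k) * η ^ k := by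
            rw [inv_pow]; field_simp
        _ ≤ _ := by gcongr
    nlinarith

noncomputable def S (a : ℕ → ℕ) (n : ℕ) (w : ℝ) : ℝ :=
  ∑ k ∈ Finset.range n, Real.cos (2 * Real.pi * a k * w)

lemma S_cont (a : ℕ → ℕ) (n : ℕ) : Continuous (S a n) := by unfold S; fun_prop

noncomputable def kappaT (m : ℕ) : ℝ := iteratedDeriv m (fun t => Real.log (I0 t)) 0

lemma kappa_step {η : ℝ} (hη : 1 < η) (m n : ℕ) (h : m ≤ MM η n) :
    kappa m (S (sq η) (n + 2)) = kappa m (S (sq η) (n + 1)) + kappaT m := by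
  have e1 : S (sq η) (n + 2) = S (sq η) (n + 1) +
      fun w => Real.cos (2 * Real.pi * sq η (n + 1) * w) := by
    funext w; simp only [S, Pi.add_apply]; rw [Finset.sum_range_succ]
  have hX : (fun w => (S (sq η) (n + 1) w : ℂ)) ∈ TP ((st η n).2 : Set ℤ) := by
    have : (fun w => (S (sq η) (n + 1) w : ℂ)) = ∑ k ∈ Finset.range (n + 1),
        fun w : ℝ => ((Real.cos (2 * Real.pi * sq η k * w) : ℝ) : ℂ) := by
      funext w; simp only [S, Finset.sum_apply, Complex.ofReal_sum]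
    rw [this]
    refine Submodule.sum_mem _ fun k hk => ?_
    have := st_mem η n k (Nat.lt_succ_iff.mp (Finset.mem_range.mp hk))
    exact cos_mem this.1 this.2
  rw [e1, cum_add (S_cont _ _) (by fun_prop) m fun i j hij =>
    real_fact (st_zero η n) hX (sq_spec hη n).2.2 i j (hij.trans h)]
  congr 1
  unfold kappa kappaT
  simp only [mgf_cos (sq_pos hη (n + 1))]

theorem main {η : ℝ} (hη : 1 < η) (m : ℕ) :
    (∃ (K : ℕ) (c : ℝ), ∀ n ≥ K, kappa m (S (sq η) n) = n * kappaT m + c) ∧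
    Tendsto (fun n : ℕ => kappa m (S (sq η) n) / n) atTop (𝓝 (kappaT m)) := by
  obtain ⟨K, hK⟩ := eventually_atTop.mp (MM_ev hη m)
  have h1 : ∀ n ≥ K + 1, kappa m (S (sq η) n) =
      n * kappaT m + (kappa m (S (sq η) (K + 1)) - (K + 1 : ℕ) * kappaT m) := by
    intro n hn
    induction n, hn using Nat.le_induction with
    | base => ring
    | succ n hn ih =>
      obtain ⟨n, rfl⟩ : ∃ k, n = k + 1 := ⟨n - 1, by omega⟩
      rw [kappa_step hη m n (hK n (by omega)), ih]
      push_cast; ring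
  refine ⟨⟨K + 1, _, h1⟩, ?_⟩
  set c := kappa m (S (sq η) (K + 1)) - (K + 1 : ℕ) * kappaT m
  have t1 : Tendsto (fun n : ℕ => kappaT m + c / n) atTop (𝓝 (kappaT m + 0)) :=
    tendsto_const_nhds.add (tendsto_const_div_atTop_nhds_zero_nat c)
  rw [add_zero] at t1
  refine t1.congr' ?_
  filter_upwards [eventually_ge_atTop (K + 1)] with n hn
  have : (n : ℝ) ≠ 0 := by
    have : 0 < n := by omega
    positivity
  rw [h1 n hn]; field_simp

end Pool.Agent.H.MP_5c394f_nt
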